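import Pool.Agent.Q7.LS.Stm

set_option autoImplicit false
set_option linter.unusedSectionVars false

/-!
# Project LS (helper7), job NSB: a basis of the group of the `S`-units of relative norm `1`

The transport of valuations by automorphisms is taken from `Pool.Agent.TeamU.GalAct`, the lemmas `kum_galois` and
`tot_complex` from `Pool.Agent.Q7.LK.Fin2`.
-/

namespace Pool.Agent.Q223.LS

open NumberField IsDedekindDomain
open Pool.Agent.Q7.LK
open Pool.Agent.Q7.LS

/-! ## General facts -/

theorem kum_galois {p : ℕ} [Fact p.Prime] {F L : Type} [Field F] [NumberField F] [Field L] [NumberField L]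
    [Algebra F L] {ζ d : F} (hζ : IsPrimitiveRoot ζ p) (hk : Kum p F L d) (hd : ¬ IsPow p d) : IsGalois F L := by
  have hp : p.Prime := Fact.out
  obtain ⟨x, hx⟩ := hk.root
  have hirr : Irreducible (Polynomial.X ^ p - Polynomial.C d : Polynomial F) := by
    apply X_pow_sub_C_irreducible_of_prime hp
    intro b hb
    exact hd ⟨b, hb.symm⟩
  have hroot : (Polynomial.aeval x) (Polynomial.X ^ p - Polynomial.C d : Polynomial F) = 0 := by
    simp [hx]
  have hmin : minpoly F x = Polynomial.X ^ p - Polynomial.C d :=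
    (minpoly.eq_of_irreducible_of_monic hirr hroot (Polynomial.monic_X_pow_sub_C d hp.ne_zero)).symm
  have : FiniteDimensional F L := Module.Finite.of_restrictScalars_finite ℚ F L
  have htop : IntermediateField.adjoin F {x} = ⊤ := by
    rw [Field.primitive_element_iff_minpoly_natDegree_eq, hmin, hk.deg]
    exact Polynomial.natDegree_X_pow_sub_C
  have hne : (primitiveRoots p F).Nonempty := ⟨ζ, (mem_primitiveRoots hp.pos).2 hζ⟩
  have hspl : Polynomial.IsSplittingField F L (Polynomial.X ^ p - Polynomial.C d) := by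
    have := isSplittingField_X_pow_sub_C_of_root_adjoin_eq_top (K := F) (L := L) (a := d)
      (by rw [hk.deg]; exact hne) (by rw [hk.deg]; exact hx) htop
    rwa [hk.deg] at this
  exact IsGalois.of_separable_splitting_field (p := Polynomial.X ^ p - Polynomial.C d) hirr.separable

theorem tot_complex {p : ℕ} [Fact p.Prime] (hp : p ≠ 2) {K : Type} [Field K] [NumberField K] {ζ : K}
    (hζ : IsPrimitiveRoot ζ p) : IsTotallyComplex K := by
  have h3 : 2 < p := lt_of_le_of_ne (Fact.out : p.Prime).two_le (Ne.symm hp)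
  refine ⟨fun v => ?_⟩
  rw [← InfinitePlace.not_isReal_iff_isComplex]
  intro hv
  exact hζ.ne_one (Fact.out : p.Prime).one_lt (by
    have h1 : (v.embedding_of_isReal hv ζ) ^ p = 1 := by rw [← map_pow, hζ.pow_eq_one, map_one]
    have hodd : Odd p := (Fact.out : p.Prime).odd_of_ne_two hp
    have h2 : v.embedding_of_isReal hv ζ = 1 := by
      have := hodd.strictMono_pow (R := ℝ) |>.injective
      apply this
      simpa using h1
    exact (v.embedding_of_isReal hv).injective (by rw [h2, map_one]))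

/-- a finitely generated abelian group has a basis modulo torsion -/
theorem exists_basis (M : Type) [AddCommGroup M] [Module.Finite ℤ M] :
    ∃ (g : Fin (Module.finrank ℤ M) → M) (h : ℕ), 0 < h ∧
      (∀ c : Fin (Module.finrank ℤ M) → ℤ, ∑ i, c i • g i = 0 → c = 0) ∧
      ∀ x : M, ∃ c : Fin (Module.finrank ℤ M) → ℤ, h • x = h • ∑ i, c i • g i := by
  set T : Submodule ℤ M := Submodule.torsion ℤ M with hT
  have hmk : ∀ x : M, T.mkQ x = 0 ↔ x ∈ T := fun x => by
    rw [Submodule.mkQ_apply, Submodule.Quotient.mk_eq_zero]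
  have htf : Module.IsTorsionFree ℤ (M ⧸ T) := inferInstance
  have hfree : Module.Free ℤ (M ⧸ T) := inferInstance
  have hn : Module.finrank ℤ (M ⧸ T) = Module.finrank ℤ M := finrank_quotient_eq_of_le_torsion le_rfl
  let b0 : Module.Basis (Fin (Module.finrank ℤ (M ⧸ T))) ℤ (M ⧸ T) := Module.finBasis ℤ (M ⧸ T)
  let b : Module.Basis (Fin (Module.finrank ℤ M)) ℤ (M ⧸ T) := b0.reindex (finCongr hn)
  have hTf : Module.Finite ℤ T := inferInstance
  have hTt : Module.IsTorsion ℤ T := Submodule.torsion_isTorsion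
  have hfin : Finite T := Module.finite_of_fg_torsion T hTt
  choose g hg using fun i => Submodule.mkQ_surjective T (b i)
  refine ⟨g, Nat.card T, Nat.card_pos, ?_, ?_⟩
  · intro c hc
    have h1 := congrArg T.mkQ hc
    rw [map_sum, map_zero] at h1
    simp only [map_zsmul, hg] at h1
    have h2 := Fintype.linearIndependent_iff.1 b.linearIndependent c h1
    funext i
    exact h2 i
  · intro x
    refine ⟨fun i => b.repr (T.mkQ x) i, ?_⟩
    have h1 : x - ∑ i, b.repr (T.mkQ x) i • g i ∈ T := by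
      rw [← hmk, map_sub, map_sum]
      simp only [map_zsmul, hg]
      rw [b.sum_repr, sub_self]
    have h2 : Nat.card T • (⟨_, h1⟩ : T) = 0 := card_nsmul_eq_zero'
    have h3 := congrArg (Subtype.val) h2
    rw [Submodule.coe_smul_of_tower] at h3
    rw [smul_sub] at h3
    exact sub_eq_zero.1 h3

/-! ## Primes -/

section

variable {F : Type} [Field F] [NumberField F] {L : Type} [Field L] [NumberField L] [Algebra F L]

/-- action of a field automorphism on the primes. -/
noncomputable def act (σ : L ≃ₐ[F] L) (P : HeightOneSpectrum (𝓞 L)) : HeightOneSpectrum (𝓞 L) :=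
  HeightOneSpectrum.equivOfRingEquiv (RingOfIntegers.mapRingEquiv σ.toRingEquiv) P

theorem act_asIdeal (σ : L ≃ₐ[F] L) (P : HeightOneSpectrum (𝓞 L)) :
    (act σ P).asIdeal = P.asIdeal.map (RingOfIntegers.mapRingEquiv σ.toRingEquiv : 𝓞 L →+* 𝓞 L) := by
  exact (Ideal.map_comap_of_equiv (RingOfIntegers.mapRingEquiv σ.toRingEquiv)).symm

theorem mem_act_pow (σ : L ≃ₐ[F] L) (P : HeightOneSpectrum (𝓞 L)) (n : ℕ) (x : 𝓞 L) :
    RingOfIntegers.mapRingEquiv σ.toRingEquiv x ∈ (act σ P).asIdeal ^ n ↔ x ∈ P.asIdeal ^ n := by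
  rw [act_asIdeal, ← Ideal.map_pow]
  constructor
  · intro h
    have h2 := Ideal.mem_map_of_mem ((RingOfIntegers.mapRingEquiv σ.toRingEquiv).symm : 𝓞 L →+* 𝓞 L) h
    rw [Ideal.map_map] at h2
    simpa using h2
  · intro h
    exact Ideal.mem_map_of_mem _ h

theorem intValuation_act (σ : L ≃ₐ[F] L) (P : HeightOneSpectrum (𝓞 L)) (x : 𝓞 L) :
    (act σ P).intValuation (RingOfIntegers.mapRingEquiv σ.toRingEquiv x) = P.intValuation x := by
  rcases eq_or_ne x 0 with rfl | hx
  · simp
  · have hx' : RingOfIntegers.mapRingEquiv σ.toRingEquiv x ≠ 0 := by simpa using hx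
    rw [HeightOneSpectrum.intValuation_eq_exp_neg_multiplicity _ hx,
      HeightOneSpectrum.intValuation_eq_exp_neg_multiplicity _ hx']
    congr 3
    refine multiplicity_eq_of_emultiplicity_eq (emultiplicity_eq_emultiplicity_iff.mpr fun n => ?_)
    rw [Ideal.dvd_span_singleton, Ideal.dvd_span_singleton]
    exact mem_act_pow σ P n x

theorem val_act (σ : L ≃ₐ[F] L) (P : HeightOneSpectrum (𝓞 L)) (x : L) :
    (act σ P).valuation L (σ x) = P.valuation L x := by
  obtain ⟨a, b, hb, rfl⟩ := IsFractionRing.div_surjective (A := 𝓞 L) x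
  rw [map_div₀, map_div₀, map_div₀]
  have h : ∀ a : 𝓞 L, σ (algebraMap (𝓞 L) L a) =
      algebraMap (𝓞 L) L (RingOfIntegers.mapRingEquiv σ.toRingEquiv a) := fun a => rfl
  rw [h, h, HeightOneSpectrum.valuation_of_algebraMap, HeightOneSpectrum.valuation_of_algebraMap,
    HeightOneSpectrum.valuation_of_algebraMap, HeightOneSpectrum.valuation_of_algebraMap,
    intValuation_act, intValuation_act]

theorem ab_iff (v : HeightOneSpectrum (𝓞 F)) (P : HeightOneSpectrum (𝓞 L)) :
    Ab v P ↔ P.under (𝓞 F) = v := by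
  unfold Pool.Agent.Q7.LS.Ab
  constructor
  · intro h
    rw [Ideal.map_le_iff_le_comap] at h
    apply HeightOneSpectrum.ext
    exact (v.isMaximal.eq_of_le (P.under (𝓞 F)).isPrime.ne_top h).symm
  · rintro rfl
    rw [Ideal.map_le_iff_le_comap]
    exact le_rfl

theorem ab_act (σ : L ≃ₐ[F] L) {v : HeightOneSpectrum (𝓞 F)} {P : HeightOneSpectrum (𝓞 L)} (h : Ab v P) :
    Ab v (act σ P) := by
  unfold Pool.Agent.Q7.LS.Ab at h ⊢
  rw [Ideal.map_le_iff_le_comap] at h ⊢
  intro x hx
  rw [Ideal.mem_comap, act_asIdeal]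
  have h1 : algebraMap (𝓞 F) (𝓞 L) x =
      RingOfIntegers.mapRingEquiv σ.toRingEquiv (algebraMap (𝓞 F) (𝓞 L) x) := by
    apply RingOfIntegers.ext
    exact (σ.commutes (x : F)).symm
  rw [h1]
  exact Ideal.mem_map_of_mem _ (h hx)

theorem exists_ab (v : HeightOneSpectrum (𝓞 F)) : ∃ P : HeightOneSpectrum (𝓞 L), Ab v P := by
  have hmax : v.asIdeal.IsMaximal := v.isMaximal
  obtain ⟨Q, hQ, hQ2⟩ := Ideal.exists_maximal_ideal_liesOver_of_isIntegral (S := 𝓞 L) v.asIdeal
  have hne : Q ≠ ⊥ := by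
    intro h
    have h2 := hQ2.over
    rw [h, Ideal.under_bot] at h2
    exact v.ne_bot h2
  refine ⟨⟨Q, hQ.isPrime, hne⟩, ?_⟩
  rw [ab_iff]
  apply HeightOneSpectrum.ext
  exact hQ2.over.symm

theorem finite_ab (v : HeightOneSpectrum (𝓞 F)) : {P : HeightOneSpectrum (𝓞 L) | Ab v P}.Finite := by
  have h0 : v.asIdeal.map (algebraMap (𝓞 F) (𝓞 L)) ≠ ⊥ := by
    intro h
    rw [Ideal.map_eq_bot_iff_of_injective (FaithfulSMul.algebraMap_injective (𝓞 F) (𝓞 L))] at h
    exact v.ne_bot h
  have h1 := Ideal.finite_factors h0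
  refine h1.subset fun P hP => ?_
  exact Ideal.dvd_iff_le.2 hP

/-- the relative norm of a number which is a unit above `v` is a unit at `v` -/
theorem norm_unit [IsGalois F L] (v : HeightOneSpectrum (𝓞 F)) (x : L) (hx : Un v x) :
    v.valuation F (Algebra.norm F x) = 1 := by
  obtain ⟨P, hP⟩ := exists_ab (F := F) (L := L) v
  have hover : P.asIdeal.LiesOver v.asIdeal := ⟨by
    rw [← (ab_iff v P).1 hP]
    rfl⟩
  have h1 := HeightOneSpectrum.valuation_liesOver (K := F) L v P (Algebra.norm F x)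
  have : FiniteDimensional F L := Module.Finite.of_restrictScalars_finite ℚ F L
  rw [Algebra.norm_eq_prod_automorphisms, map_prod] at h1
  have h2 : ∀ σ : L ≃ₐ[F] L, P.valuation L (σ x) = 1 := by
    intro σ
    have h3 := val_act σ⁻¹ P (σ x)
    have h4 : σ⁻¹ (σ x) = x := by
      rw [← AlgEquiv.mul_apply, inv_mul_cancel, AlgEquiv.one_apply]
    rw [h4] at h3
    rw [← h3]
    exact hx _ (ab_act σ⁻¹ hP)
  rw [Finset.prod_congr rfl (fun σ _ => h2 σ), Finset.prod_const_one] at h1
  exact (pow_eq_one_iff_of_nonneg zero_le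
    (Ideal.IsDedekindDomain.ramificationIdx'_ne_zero_of_liesOver P.asIdeal v.ne_bot)).1 h1

/-- the primes above `S` -/
def PS (F : Type) [Field F] [NumberField F] (L : Type) [Field L] [NumberField L] [Algebra F L]
    (S : Set (HeightOneSpectrum (𝓞 F))) : Set (HeightOneSpectrum (𝓞 L)) := {P | P.under (𝓞 F) ∈ S}

theorem PS_finite {S : Set (HeightOneSpectrum (𝓞 F))} (hS : S.Finite) : (PS F L S).Finite := by
  have h1 : PS F L S ⊆ ⋃ v ∈ S, {P : HeightOneSpectrum (𝓞 L) | Ab v P} := by
    intro P hP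
    simp only [Set.mem_iUnion]
    exact ⟨P.under (𝓞 F), hP, (ab_iff _ _).2 rfl⟩
  exact (hS.biUnion fun v _ => finite_ab v).subset h1

theorem mem_SUn (S : Set (HeightOneSpectrum (𝓞 F))) (x : Lˣ) :
    x ∈ SUn L S ↔ ∀ P : HeightOneSpectrum (𝓞 L), P ∉ PS F L S → P.valuation L (x : L) = 1 := by
  constructor
  · intro h P hP
    exact h (P.under (𝓞 F)) hP P ((ab_iff _ _).2 rfl)
  · intro h v hv P hP
    apply h
    intro h1
    rw [ab_iff] at hP
    exact hv (hP ▸ h1)

open Classical in
/-- the number of the primes above `S` -/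
theorem card_PS {p : ℕ} [Fact p.Prime] (hp : p ≠ 2) (hSPL : S_SPL) {ζ d : F} (hζ : IsPrimitiveRoot ζ p)
    (hk : Kum p F L d) (hd : ¬ IsPow p d) {S : Set (HeightOneSpectrum (𝓞 F))} (hS : S.Finite) :
    S.ncard + (p - 1) * sX p S d ≤ (PS F L S).ncard := by
  have hP := PS_finite (L := L) hS
  rw [Set.ncard_eq_toFinset_card _ hS, Set.ncard_eq_toFinset_card _ hP]
  have h1 : ∀ P ∈ hP.toFinset, P.under (𝓞 F) ∈ hS.toFinset := by
    intro P hP'
    rw [Set.Finite.mem_toFinset] at hP' ⊢
    exact hP'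
  rw [Finset.card_eq_sum_card_fiberwise h1]
  have hs : sX p S d = ∑ v ∈ hS.toFinset, if Lpw p v d then 1 else 0 := by
    unfold sX
    rw [Finset.sum_boole, Nat.cast_id]
    have : {v | v ∈ S ∧ Lpw p v d} = ((hS.toFinset.filter (fun v => Lpw p v d) : Finset _) :
        Set (HeightOneSpectrum (𝓞 F))) := by
      ext v
      simp
    rw [this, Set.ncard_coe_finset]
  rw [hs, Finset.mul_sum, Finset.card_eq_sum_ones, ← Finset.sum_add_distrib]
  refine Finset.sum_le_sum fun v hv => ?_
  have hvS : v ∈ S := by simpa using hv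
  have h2 : 1 ≤ p := (Fact.out : p.Prime).one_lt.le
  split_ifs with h
  · obtain ⟨P, hPi, hPa⟩ := hSPL p hp F L ζ d hζ hk hd v h
    have h3 : (Finset.univ.image P).card ≤ (hP.toFinset.filter (fun Q => Q.under (𝓞 F) = v)).card := by
      apply Finset.card_le_card
      intro Q hQ
      rw [Finset.mem_image] at hQ
      obtain ⟨i, _, rfl⟩ := hQ
      have h4 := (ab_iff _ _).1 (hPa i)
      rw [Finset.mem_filter, Set.Finite.mem_toFinset]
      refine ⟨?_, h4⟩
      show (P i).under (𝓞 F) ∈ S
      rw [h4]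
      exact hvS
    rw [Finset.card_image_of_injective _ hPi, Finset.card_univ, Fintype.card_fin] at h3
    omega
  · obtain ⟨Q, hQ⟩ := exists_ab (L := L) v
    have h4 := (ab_iff _ _).1 hQ
    rw [mul_zero, add_zero, Nat.one_le_iff_ne_zero, Finset.card_ne_zero]
    refine ⟨Q, ?_⟩
    rw [Finset.mem_filter, Set.Finite.mem_toFinset]
    refine ⟨?_, h4⟩
    show Q.under (𝓞 F) ∈ S
    rw [h4]
    exact hvS

end

theorem nsb : S_SUR → S_SPL → S_NSB := by
  intro hSUR hSPL p _ hp F L _ _ _ _ _ ζ d hζ hk hd S hS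
  have hpp : p.Prime := Fact.out
  have hgal := kum_galois hζ hk hd
  have hfd : FiniteDimensional F L := Module.Finite.of_restrictScalars_finite ℚ F L
  have htF : IsTotallyComplex F := tot_complex hp hζ
  have hζL : IsPrimitiveRoot (algebraMap F L ζ) p := hζ.map_of_injective (algebraMap F L).injective
  have htL : IsTotallyComplex L := tot_complex hp hζL
  -- ranks
  obtain ⟨U, hU, hUfg, hUr⟩ := hSUR L (PS F L S) (PS_finite hS)
  obtain ⟨V, hV, hVfg, hVr⟩ := hSUR F S hS
  have hUS : U = SUn L S := by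
    ext x
    rw [hU, mem_SUn]
  subst hUS
  have hUf : Module.Finite ℤ (Additive (SUn L S)) := by
    rw [Module.Finite.iff_addGroup_fg]
    exact GroupFG.iff_add_fg.1 hUfg
  have hVf : Module.Finite ℤ (Additive V) := by
    rw [Module.Finite.iff_addGroup_fg]
    exact GroupFG.iff_add_fg.1 hVfg
  have hNV : ∀ x : SUn L S, nmU F (x : Lˣ) ∈ V := by
    intro x
    rw [hV]
    intro v hv
    exact norm_unit v ((x : Lˣ) : L) (x.2 v hv)
  let f0 : SUn L S →* V := ((nmU F).comp (SUn L S).subtype).codRestrict V hNV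
  let f : Additive (SUn L S) →ₗ[ℤ] Additive V := (MonoidHom.toAdditive f0).toIntLinearMap
  have hf : ∀ x : Additive (SUn L S), f x = 0 ↔ nmU F ((x.toMul : SUn L S) : Lˣ) = 1 := by
    intro x
    have h1 : f x = 0 ↔ f0 x.toMul = 1 := Iff.rfl
    rw [h1, Subtype.ext_iff]
    exact Iff.rfl
  have h1 := Submodule.finrank_quotient_add_finrank (LinearMap.ker f)
  rw [f.quotKerEquivRange.finrank_eq, hUr] at h1
  have h2 : Module.finrank ℤ (LinearMap.range f) ≤ Module.finrank ℤ (Additive V) := Submodule.finrank_le _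
  rw [hVr] at h2
  have h3 := card_PS hp hSPL hζ hk hd hS
  have h4 : InfinitePlace.nrRealPlaces F = 0 := NumberField.nrRealPlaces_eq_zero_iff.2 htF
  have h5 : InfinitePlace.nrRealPlaces L = 0 := NumberField.nrRealPlaces_eq_zero_iff.2 htL
  have h6 : Module.finrank ℚ F = 2 * InfinitePlace.nrComplexPlaces F := IsTotallyComplex.finrank F
  have h7 : Module.finrank ℚ L = 2 * InfinitePlace.nrComplexPlaces L := IsTotallyComplex.finrank L
  have h8 : Module.finrank ℚ F * Module.finrank F L = Module.finrank ℚ L := Module.finrank_mul_finrank ℚ F L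
  rw [hk.deg] at h8
  have h9 : 0 < Module.finrank ℚ F := Module.finrank_pos
  have h10 : InfinitePlace.nrComplexPlaces L = p * InfinitePlace.nrComplexPlaces F := by
    have : 2 * InfinitePlace.nrComplexPlaces L = 2 * (p * InfinitePlace.nrComplexPlaces F) := by
      rw [← h7, ← h8, h6]
      ring
    omega
  have h11 : 0 < InfinitePlace.nrComplexPlaces F := by omega
  have hrank : (p - 1) * (InfinitePlace.nrComplexPlaces F + sX p S d) ≤ Module.finrank ℤ (LinearMap.ker f) := by
    obtain ⟨q, hq⟩ : ∃ q, p = q + 1 := ⟨p - 1, by have := hpp.one_lt; omega⟩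
    have h12 : p - 1 = q := by omega
    rw [h12] at h3 ⊢
    have h13 : p * InfinitePlace.nrComplexPlaces F =
        q * InfinitePlace.nrComplexPlaces F + InfinitePlace.nrComplexPlaces F := by rw [hq]; ring
    rw [h4] at h2
    rw [h5, h10, h13] at h1
    rw [mul_add]
    generalize q * InfinitePlace.nrComplexPlaces F = A at *
    generalize q * sX p S d = B at *
    omega
  have hKf : Module.Finite ℤ (LinearMap.ker f) := inferInstance
  obtain ⟨g, h, hh, hind, hspan⟩ := exists_basis (LinearMap.ker f)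
  let J : LinearMap.ker f →+ Additive Lˣ :=
    (MonoidHom.toAdditive (SUn L S).subtype).comp (LinearMap.ker f).subtype.toAddMonoidHom
  have hJi : Function.Injective J := by
    intro x y hxy
    apply Subtype.ext
    have h14 : ((((x : Additive (SUn L S))).toMul : SUn L S) : Lˣ) = (((y : Additive (SUn L S))).toMul : SUn L S) :=
      hxy
    exact Additive.toMul.injective (Subtype.ext h14)
  have hJ : ∀ c : Fin (Module.finrank ℤ (LinearMap.ker f)) → ℤ,
      ∏ i, (J (g i)).toMul ^ c i = (J (∑ i, c i • g i)).toMul := by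
    intro c
    rw [map_sum, toMul_sum]
    refine Finset.prod_congr rfl fun i _ => ?_
    rw [map_zsmul, toMul_zsmul]
  refine ⟨Module.finrank ℤ (LinearMap.ker f), fun i => (J (g i)).toMul, h, ⟨hh, ?_, ?_, ?_⟩, hrank⟩
  · intro i
    refine ⟨((g i : Additive (SUn L S)).toMul : SUn L S).2, ?_⟩
    have h15 := (g i).2
    rw [LinearMap.mem_ker, hf] at h15
    exact h15
  · intro c hc
    rw [hJ] at hc
    apply hind
    apply hJi
    rw [map_zero]
    exact hc
  · intro η hη
    have hη1 : η ∈ SUn L S := hη.1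
    have hη2 : nmU F η = 1 := hη.2
    obtain ⟨c, hc⟩ := hspan ⟨Additive.ofMul ⟨η, hη1⟩, by
      rw [LinearMap.mem_ker, hf]
      exact hη2⟩
    refine ⟨c, ?_⟩
    rw [hJ]
    have h16 := congrArg (fun x => (J x).toMul) hc
    simp only [map_nsmul, toMul_nsmul] at h16
    exact h16

end Pool.Agent.Q223.LS
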